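import Pool.Agent.Helper884.PK.Quot

set_option linter.unusedSectionVars false
set_option linter.style.haveILetI false

open Pool.Agent.Helper884.PK

namespace Pool.Agent.Results.MP_895f30_al.Small

/-- The question has a positive answer for maximal degree at most `p ^ 2`; for odd `p` and every `e`
the common kernel of the representations of maximal degree lies in the kernel of every irreducible
representation of degree at most `p`. -/
theorem result :
    (∀ (p : ℕ), p.Prime → ∀ (G : Type) [Group G] [Finite G], IsPGroup p G → ∀ e : ℕ,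
      (∃ (V : Type) (_ : AddCommGroup V) (_ : Module ℂ V) (_ : FiniteDimensional ℂ V)
        (rho : Representation ℂ G V), rho.IsIrreducible ∧ Module.finrank ℂ V = p ^ e) →
      (∀ (V : Type) [AddCommGroup V] [Module ℂ V] [FiniteDimensional ℂ V]
        (rho : Representation ℂ G V), rho.IsIrreducible → Module.finrank ℂ V ≤ p ^ e) →
      e < p → e ≤ 2 →
      ∀ g : G, (∀ (V : Type) [AddCommGroup V] [Module ℂ V] [FiniteDimensional ℂ V]
        (rho : Representation ℂ G V), rho.IsIrreducible → Module.finrank ℂ V = p ^ e → rho g = 1) →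
      g = 1) ∧
    (∀ (p : ℕ), p.Prime → p ≠ 2 → ∀ (G : Type) [Group G] [Finite G], IsPGroup p G → ∀ e : ℕ,
      (∃ (V : Type) (_ : AddCommGroup V) (_ : Module ℂ V) (_ : FiniteDimensional ℂ V)
        (rho : Representation ℂ G V), rho.IsIrreducible ∧ Module.finrank ℂ V = p ^ e) →
      (∀ (V : Type) [AddCommGroup V] [Module ℂ V] [FiniteDimensional ℂ V]
        (rho : Representation ℂ G V), rho.IsIrreducible → Module.finrank ℂ V ≤ p ^ e) →
      ∀ g : G, (∀ (V : Type) [AddCommGroup V] [Module ℂ V] [FiniteDimensional ℂ V]
        (rho : Representation ℂ G V), rho.IsIrreducible → Module.finrank ℂ V = p ^ e → rho g = 1) →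
      ∀ (W : Type) [AddCommGroup W] [Module ℂ W] [FiniteDimensional ℂ W]
        (sigma : Representation ℂ G W), sigma.IsIrreducible → Module.finrank ℂ W ≤ p →
        sigma g = 1) := by
  constructor
  · intro p hp G _ _ hG e hex hmax hep he2 g hg
    letI : Fintype G := Fintype.ofFinite G
    haveI : Fact p.Prime := ⟨hp⟩
    apply separate g
    intro W _ _ _ sigma hs
    by_contra hsg
    obtain ⟨a, _, h1, h2, h3⟩ := main p hG e hex hmax sigma hs g hg hsg
    have ha : a = 1 := by omega
    have he : e = 2 := by omega
    have := h2 (by omega)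
    omega
  · intro p hp hp2 G _ _ hG e hex hmax g hg W _ _ _ sigma hs hd
    letI : Fintype G := Fintype.ofFinite G
    haveI : Fact p.Prime := ⟨hp⟩
    by_contra hsg
    obtain ⟨a, ha, _, h2, _⟩ := main p hG e hex hmax sigma hs g hg hsg
    have h3 := h2 hp2
    rw [ha] at hd
    have h4 : p ^ a ≤ p ^ 1 := by rwa [pow_one]
    have := (Nat.pow_le_pow_iff_right hp.one_lt).mp h4
    omega

end Pool.Agent.Results.MP_895f30_al.Small
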